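import Mathlib
import Pool.Agent.P.MP_aee6d4_lc.Defs
import Pool.Agent.P.MP_aee6d4_lc.Main

namespace Pool.Agent.Results.MP_aee6d4_lc.SSRNoSquare

universe u

open Pool.Agent.P.MP_aee6d4_lc

/-- For every regular `k > ℵ₂`, semistationary reflection at `k` implies the failure of
`□(k, ω₁)` (width at most `ℵ₁`). -/
theorem result (k : Cardinal.{u}) (hk : k.IsRegular) (h2 : Cardinal.aleph 2 < k)
    (hS : SSRAt k) : ¬ Square k :=
  not_square_of_ssr hk h2 hS

end Pool.Agent.Results.MP_aee6d4_lc.SSRNoSquare
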